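import Pool.Agent.Helper49.VF.Diagonal

/-!
# Diagonal Fano hypersurfaces are separably rationally connected

Let `k` be an algebraically closed field of characteristic `p > 0`, `d ≥ 2` prime to `p` and
`a i ≠ 0`. The smooth diagonal hypersurface `∑ a i * X i ^ d = 0` in `P^N` has a very free rational
curve if `N ≥ d + 1` (index at least two), or if `N = d` (index one) and `p` is not `1` modulo `d`.

The curve is explicit: `f j = l j * (s - P j * t) ^ e` with `d * e = Q + r`, `Q` a large power of
`p`, `1 ≤ r ≤ N - 2` and `P j` distinct elements of `F_Q`.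
-/

namespace Pool.Agent.Results.MP_e809c2_ag.Diagonal

open MvPolynomial Pool.Agent.Helper49.VF

/-- Diagonal Fano hypersurfaces are separably rationally connected, except possibly those of index
one with `p` congruent to `1` modulo the degree. -/
theorem result {k : Type*} [Field k] [IsAlgClosed k] {p : ℕ} [Fact p.Prime] [CharP k p]
    {N d : ℕ} (hd : 2 ≤ d) (hpd : ¬ p ∣ d) (hN : d + 1 ≤ N ∨ (N = d ∧ p % d ≠ 1))
    (a : Fin (N + 1) → k) (ha : ∀ i, a i ≠ 0) :
    ∃ e, HasVeryFreeCurve (fun _ : Fin 1 => ∑ i, C (a i) * X i ^ d) e := by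
  have hp : p.Prime := Fact.out
  have hcop : Nat.Coprime p d := (Nat.Prime.coprime_iff_not_dvd hp).mpr hpd
  have hphi : 0 < Nat.totient d := Nat.totient_pos.mpr (by omega)
  -- choose the residue
  obtain ⟨m0, r, hr1, hrN, hdr⟩ : ∃ m0 r : ℕ, 1 ≤ r ∧ r + 2 ≤ N ∧ d ∣ p ^ m0 + r := by
    rcases hN with h | ⟨h1, h2⟩
    · refine ⟨0, d - 1, by omega, by omega, ?_⟩
      rw [pow_zero]
      have : 1 + (d - 1) = d := by omega
      rw [this]
    · have h3 : p % d ≠ 0 := by
        intro h0
        have h4 : d ∣ p := Nat.dvd_of_mod_eq_zero h0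
        rcases (Nat.dvd_prime hp).mp h4 with h5 | h5
        · omega
        · exact hpd (h5 ▸ dvd_rfl)
      have h4 : p % d < d := Nat.mod_lt _ (by omega)
      refine ⟨1, d - p % d, by omega, by omega, ?_⟩
      rw [pow_one]
      have h5 := Nat.div_add_mod p d
      refine ⟨p / d + 1, ?_⟩
      rw [mul_add, mul_one]
      omega
  set t := N + 1 + d * (d * r) with ht
  set m := m0 + Nat.totient d * t with hm
  have hmod : p ^ m ≡ p ^ m0 [MOD d] := by
    rw [hm, pow_add, pow_mul]
    have h1 := (Nat.ModEq.pow_totient hcop).pow t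
    rw [one_pow] at h1
    have h2 := h1.mul_left (p ^ m0)
    rwa [mul_one] at h2
  have hdvd : d ∣ p ^ m + r := by
    have h1 : p ^ m + r ≡ p ^ m0 + r [MOD d] := hmod.add_right r
    exact (h1.dvd_iff dvd_rfl).mpr hdr
  obtain ⟨e, he⟩ := hdvd
  have hbig : t < p ^ m := by
    have h1 : m < p ^ m := Nat.lt_pow_self hp.one_lt
    have h2 : t ≤ m := by
      rw [hm]
      have : t ≤ Nat.totient d * t := Nat.le_mul_of_pos_left _ hphi
      omega
    omega
  have hm0 : m ≠ 0 := by
    intro h0
    rw [h0, pow_zero] at hbig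
    omega
  refine ⟨e, diagonal_curve (p := p) (m := m) hd hpd a ha hr1 hrN ?_ he.symm ?_ hm0 ?_⟩
  · rcases hN with h | h <;> omega
  · have h1 : d * (d * r) ≤ d * e := by
      rw [← he]
      omega
    exact Nat.le_of_mul_le_mul_left h1 (by omega)
  · omega

end Pool.Agent.Results.MP_e809c2_ag.Diagonal
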