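import Pool.Agent.Helper49.VF.Quadratic

/-!
# Smooth complete intersections of low degree are separably rationally connected

Over any algebraically closed field (of any characteristic), every smooth complete intersection
`X = V(F 0, …, F (c-1))` in `P^N` of degrees `d b` with `2 ≤ d b ≤ D` and
`N + 1 ≥ 2 * D * ∑ d b` has a very free rational curve of degree `D`. In particular (`c = 1`,
`D = d`) every smooth hypersurface of degree `d ≥ 2` in `P^N`, `N + 1 ≥ 2 * d ^ 2`, is separably
rationally connected.

Sketch. Let `M` be the cone of all `(w 0, …, w D)` in `(k^(N+1))^(D+1)` such that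
`f = ∑ l, w l * s^l * t^(D-l)` satisfies `F b (f) = 0` for all `b`; it is cut out by
`∑ (d b * D + 1)` equations vanishing at the origin. The curve `f` is very free as soon as the
linear map `g ↦ (∑ m, (∂ F b/∂ x m)(f) g m)_b` from tuples of forms of degree `D - 2` to tuples of
forms of degrees `d b * D - 2` is surjective. If it is not, let `v` be a nonzero functional
killing the image and let `v x0 ≠ 0` be a coordinate of `v` at a form of largest degree; it belongs
to the monomial `s^(i * (d - 1) + r)` for some `i ≤ D`, `r ≤ D - 2`, and looking at the terms of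
top degree in `w i` one sees, by smoothness, that `w i` is integral over the field generated by
the other `w l` and the ratios `v x / v x0`. If this happened at a generic point of a component of
`M`, the dimension of that component would be too small by Krull's height theorem.
-/

namespace Pool.Agent.Results.MP_e809c2_ag.LowDegree

open MvPolynomial Pool.Agent.Helper49.VF

universe u

/-- Every smooth complete intersection of degrees `d b` (`2 ≤ d b ≤ D`) in `P^N` over an
algebraically closed field, `N + 1 ≥ 2 * D * ∑ d b`, has a very free rational curve of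
degree `D`. -/
theorem result {k : Type u} [Field k] [IsAlgClosed k] {N c D : ℕ} (hc : 0 < c) (d : Fin c → ℕ)
    (hd : ∀ b, 2 ≤ d b ∧ d b ≤ D) (F : Fin c → MvPolynomial (Fin (N + 1)) k)
    (hF : ∀ b, (F b).IsHomogeneous (d b)) (hsm : IsSmoothCI F)
    (hN : 2 * D * ∑ b, d b ≤ N + 1) : HasVeryFreeCurve F D := by
  have hD : 2 ≤ D := (hd ⟨0, hc⟩).1.trans (hd ⟨0, hc⟩).2
  obtain ⟨D', rfl⟩ : ∃ D', D = D' + 2 := ⟨D - 2, by omega⟩
  have hd2 : ∀ b, (d b - 2) + 2 = d b := fun b => Nat.sub_add_cancel (hd b).1
  apply hasVeryFreeCurve_quadratic hc (e := fun b => d b - 2)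
  · intro b
    simp only [hd2]
    exact hF b
  · intro b
    have := (hd b).2
    omega
  · exact hsm
  · simp only [hd2]
    exact hN

end Pool.Agent.Results.MP_e809c2_ag.LowDegree
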